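import Mathlib.Analysis.SpecialFunctions.Pow.Real
import Pool.Agent.MP_419040_co.fan.Core
import Pool.Agent.MP_419040_co.fan.Tur
import Pool.Agent.MP_419040_co.fan.Path
import Pool.Agent.MP_419040_co.fan.Pack
import Pool.Agent.MP_419040_co.fan.Pair
import Pool.Agent.MP_419040_co.fan.Reg

namespace Pool.Agent.Results.MP_419040_co.FanNoInteraction

open SimpleGraph Pool.Agent.MP_419040_co

theorem result : Nonempty (fan 2 ≃g subK4) ∧ ∀ t : ℕ, 8 ≤ t → subK4.IsContained (fan t) ∧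
    (∃ C : ℝ, ∀ n : ℕ,
      ((min (extremalNumber n (cycleGraph 4)) (extremalNumber n (fan t)) : ℕ) : ℝ) ≤
        C * (exPair (cycleGraph 4) (fan t) n : ℝ)) ∧
    ∃ c C : ℝ, 0 < c ∧ ∀ n : ℕ, 2 ≤ n →
      c * (n : ℝ) ^ ((7 : ℝ) / 5) ≤ (exPair (cycleGraph 4) (fan t) n : ℝ) ∧
        (extremalNumber n (fan t) : ℝ) ≤ C * (n : ℝ) ^ ((7 : ℝ) / 5) := by
  refine ⟨Fan.fan_two, fun t ht => ⟨Fan.sub_fan (by omega), ?_⟩⟩
  obtain ⟨C, hC⟩ := Fan.upper (Fan.reg (Fan.core (Fan.path Fan.tur Fan.clq) (Fan.pair Fan.pack))) t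
  have e : ∀ n : ℕ, ((n : ℝ) ^ ((7 : ℝ) / 5)) ^ 5 = (n : ℝ) ^ 7 := fun n => by
    rw [← Real.rpow_natCast, ← Real.rpow_mul (Nat.cast_nonneg n), ← Real.rpow_natCast]
    norm_num
  have up : ∀ n : ℕ, (extremalNumber n (fan t) : ℝ) ≤ (C + 1) * (n : ℝ) ^ ((7 : ℝ) / 5) :=
    fun n => by
      refine le_of_pow_le_pow_left₀ (n := 5) (by norm_num) (by positivity) ?_
      have c0 : (0 : ℝ) ≤ C := Nat.cast_nonneg C
      have c1 : (C : ℝ) ≤ (C + 1) ^ 5 :=
        (le_add_of_nonneg_right zero_le_one).trans (le_self_pow₀ (by linarith) (by norm_num))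
      rw [mul_pow, e]
      calc _ ≤ (C : ℝ) * (n : ℝ) ^ 7 := by exact_mod_cast hC n
        _ ≤ _ := by gcongr
  have lo : ∀ n : ℕ, 2 ≤ n →
      (n : ℝ) ^ ((7 : ℝ) / 5) ≤ 2 ^ 16 * (exPair (cycleGraph 4) (fan t) n : ℝ) := fun n hn => by
    refine le_of_pow_le_pow_left₀ (n := 5) (by norm_num) (by positivity) ?_
    rw [mul_pow, e, ← pow_mul]
    exact_mod_cast Fan.lower ht hn
  refine ⟨⟨(C + 1) * 2 ^ 16, fun n => ?_⟩, 1 / 2 ^ 16, C + 1, by positivity, fun n hn =>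
    ⟨by linarith [lo n hn], up n⟩⟩
  rcases lt_or_ge n 2 with h | h
  · have z : extremalNumber n (fan t) = 0 := by
      refine Nat.le_zero.1 ?_
      rw [← Fintype.card_fin n, extremalNumber_le_iff]
      intro G _ _
      refine G.card_edgeFinset_le_card_choose_two.trans ?_
      rw [Fintype.card_fin, Nat.choose_eq_zero_of_lt h]
    rw [z, Nat.min_zero, Nat.cast_zero]
    positivity
  · calc _ ≤ (extremalNumber n (fan t) : ℝ) := by exact_mod_cast min_le_right _ _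
      _ ≤ (C + 1) * (2 ^ 16 * (exPair (cycleGraph 4) (fan t) n : ℝ)) :=
        (up n).trans (by gcongr; exact lo n h)
      _ = _ := by ring

end Pool.Agent.Results.MP_419040_co.FanNoInteraction
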