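import Mathlib
import Pool.Agent.MP_419040_co.Sub

namespace Pool.Agent.Results.MP_419040_co.InteractingPair

open SimpleGraph Pool.Agent.MP_419040_co

theorem result : ∃ (k : ℕ) (H : SimpleGraph (Fin k)), H.Connected ∧ H.Colorable 2 ∧
    subK4.IsContained H ∧
    (¬ ∃ C : ℝ, ∀ n : ℕ,
      ((min (extremalNumber n (cycleGraph 4)) (extremalNumber n H) : ℕ) : ℝ) ≤
        C * (exPair (cycleGraph 4) H n : ℝ)) ∧
    ∃ δ c C : ℝ, 0 < δ ∧ 0 < c ∧ ∀ᶠ n : ℕ in Filter.atTop,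
      c * (n : ℝ) ^ ((3 : ℝ) / 2) ≤
          ((min (extremalNumber n (cycleGraph 4)) (extremalNumber n H) : ℕ) : ℝ) ∧
        (exPair (cycleGraph 4) H n : ℝ) ≤ C * (n : ℝ) ^ ((3 : ℝ) / 2 - δ) := by
  obtain ⟨k, H, h1, h2, h3, δ, c, C, hδ, hc, h⟩ := bounds
  refine ⟨k, H, h1, h2, h3, ?_, δ, c, C, hδ, hc, h⟩
  rintro ⟨K, hK⟩
  have ht : Filter.Tendsto (fun n : ℕ => (n : ℝ) ^ δ) Filter.atTop Filter.atTop :=
    (tendsto_rpow_atTop hδ).comp tendsto_natCast_atTop_atTop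
  obtain ⟨n, ⟨b1, b2⟩, b3, b4⟩ := (h.and ((ht.eventually_gt_atTop (|K| * |C| / c)).and
    (Filter.eventually_gt_atTop 0))).exists
  have hn : (0 : ℝ) < n := by exact_mod_cast b4
  have e : (n : ℝ) ^ ((3 : ℝ) / 2) = (n : ℝ) ^ δ * (n : ℝ) ^ ((3 : ℝ) / 2 - δ) := by
    rw [← Real.rpow_add hn]; congr 1; ring
  have hp : 0 < (n : ℝ) ^ ((3 : ℝ) / 2 - δ) := Real.rpow_pos_of_pos hn _
  have h0 : (0 : ℝ) ≤ (exPair (cycleGraph 4) H n : ℝ) := Nat.cast_nonneg _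
  have c1 : K * (exPair (cycleGraph 4) H n : ℝ) ≤ |K| * (|C| * (n : ℝ) ^ ((3 : ℝ) / 2 - δ)) :=
    mul_le_mul (le_abs_self K) (b2.trans (mul_le_mul_of_nonneg_right (le_abs_self C) hp.le)) h0
      (abs_nonneg K)
  rw [div_lt_iff₀ hc] at b3
  have c2 := (b1.trans (hK n)).trans c1
  rw [e] at c2
  nlinarith [mul_lt_mul_of_pos_right b3 hp]

end Pool.Agent.Results.MP_419040_co.InteractingPair
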