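import Mathlib
import Pool.Agent.MP_419040_co.Host2

namespace Pool.Agent.Results.MP_419040_co.NoSubgraphReduction

open SimpleGraph Pool.Agent.MP_419040_co

theorem result (ε : ℝ) (hε : 0 < ε) : ∃ (n : ℕ) (G : SimpleGraph (Fin n)), G.Colorable 2 ∧
    subK4.Free G ∧ 0 < G.edgeSet.ncard ∧ ∀ G' : SimpleGraph (Fin n), G' ≤ G →
      (cycleGraph 4).Free G' → (G'.edgeSet.ncard : ℝ) ≤ ε * G.edgeSet.ncard :=
  host ε hε

end Pool.Agent.Results.MP_419040_co.NoSubgraphReduction
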